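import Pool.Agent.W2helper45.UC.Stm

/-! Piece BD of project UC. -/

set_option autoImplicit false

namespace Pool.Agent.W2helper53.UC

open Pool.Agent.W2helper45.UC

theorem exists_least {n : ℕ} {A : Finset (Finset (Fin n))} (hA : A.Nonempty)
    (hc : IsChain (· ⊆ ·) (A : Set (Finset (Fin n)))) : ∃ F ∈ A, ∀ H ∈ A, F ⊆ H := by
  obtain ⟨F, hF, hmin⟩ := A.exists_min_image (fun H => H.card) hA
  refine ⟨F, hF, fun H hH => ?_⟩
  rcases hc.total (Finset.mem_coe.2 hF) (Finset.mem_coe.2 hH) with h | h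
  · exact h
  · exact (Finset.eq_of_subset_of_card_le h (hmin H hH)).symm.subset

theorem ab_subset {n : ℕ} {m : Ex n} {U F : Finset (Fin n)} (h : U ⊂ F) : ab m F ⊆ ab m U := by
  intro H hH
  rw [mem_ab] at hH ⊢
  exact ⟨hH.1, h.trans hH.2.1, hH.2.2⟩

theorem ch_ne_zero {k : ℕ} {b : ℤ} (h : ch k b ≠ 0) : 0 ≤ b := by
  unfold ch at h
  by_contra hb
  rw [if_neg hb] at h
  exact h rfl

theorem bd_aux {n : ℕ} (m : Ex n) : ∀ (k : ℕ) (U : Finset (Fin n)) (b : ℤ), n - U.card = k →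
    IsChain (· ⊆ ·) (ab m U : Set (Finset (Fin n))) → D m U b ≠ 0 → ∀ K ∈ ab m U,
      (K.card : ℤ) ≤ U.card + b + ((∑ H ∈ m.support with U ⊂ H ∧ H ⊆ K, m H : ℕ) : ℤ) := by
  intro k
  induction k using Nat.strong_induction_on with
  | _ k ih =>
    intro U b hk hc hD K hK
    obtain ⟨F, hF, hl⟩ := exists_least ⟨K, hK⟩ hc
    have hF' := mem_ab.1 hF
    rw [D_least hF hl] at hD
    have hD2 := right_ne_zero_of_mul hD
    have hc1 := ch_ne_zero (right_ne_zero_of_mul (right_ne_zero_of_mul (left_ne_zero_of_mul hD)))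
    by_cases hKF : K = F
    · subst hKF
      have h1 : m K ≤ ∑ H ∈ m.support with U ⊂ H ∧ H ⊆ K, m H :=
        Finset.single_le_sum (f := fun H => m H) (fun _ _ => Nat.zero_le _)
          (Finset.mem_filter.2 ⟨hF'.1, hF'.2.1, subset_rfl⟩)
      have h2 : ((m K : ℕ) : ℤ) ≤ ((∑ H ∈ m.support with U ⊂ H ∧ H ⊆ K, m H : ℕ) : ℤ) := by
        exact_mod_cast h1
      linarith
    · have hFK : F ⊂ K := lt_of_le_of_ne (hl K hK) (fun h => hKF h.symm)
      have hK' := mem_ab.1 hK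
      have hcard := Finset.card_lt_card hF'.2.1
      have hcF : F.card ≤ n := by
        have := Finset.card_le_univ F
        rwa [Fintype.card_fin] at this
      have h1 := ih (n - F.card) (by omega) F _ rfl
        (hc.mono (Finset.coe_subset.2 (ab_subset hF'.2.1))) hD2 K
        (mem_ab.2 ⟨hK'.1, hFK, hK'.2.2⟩)
      have h2 : m F + ∑ H ∈ m.support with F ⊂ H ∧ H ⊆ K, m H ≤
          ∑ H ∈ m.support with U ⊂ H ∧ H ⊆ K, m H := by
        have hn : F ∉ m.support.filter (fun H => F ⊂ H ∧ H ⊆ K) := by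
          intro h
          exact (Finset.mem_filter.1 h).2.1.ne rfl
        rw [← Finset.sum_insert hn]
        refine Finset.sum_le_sum_of_subset ?_
        intro H hH
        rcases Finset.mem_insert.1 hH with rfl | hH
        · exact Finset.mem_filter.2 ⟨hF'.1, hF'.2.1, hFK.subset⟩
        · have := Finset.mem_filter.1 hH
          exact Finset.mem_filter.2 ⟨this.1, hF'.2.1.trans this.2.1, this.2.2⟩
      have h3 : ((m F : ℕ) : ℤ) + ((∑ H ∈ m.support with F ⊂ H ∧ H ⊆ K, m H : ℕ) : ℤ) ≤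
          ((∑ H ∈ m.support with U ⊂ H ∧ H ⊆ K, m H : ℕ) : ℤ) := by
        exact_mod_cast h2
      linarith

theorem p_bd : P_BD := fun _ m U b hc hD K hK => bd_aux m _ U b rfl hc hD K hK

end Pool.Agent.W2helper53.UC
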