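import Pool.Agent.W2helper45.UC.Stm

/-! Piece DEG of project UC. -/

set_option autoImplicit false

namespace Pool.Agent.W2helper53.UC

open Pool.Agent.W2helper45.UC
open Pool.Agent.X153.CH (flats rk chains)

theorem exists_greatest {n : ℕ} {A : Finset (Finset (Fin n))} (hA : A.Nonempty)
    (hc : IsChain (· ⊆ ·) (A : Set (Finset (Fin n)))) : ∃ F ∈ A, ∀ H ∈ A, H ⊆ F := by
  obtain ⟨F, hF, hmax⟩ := A.exists_max_image (fun H => H.card) hA
  refine ⟨F, hF, fun H hH => ?_⟩
  rcases hc.total (Finset.mem_coe.2 hF) (Finset.mem_coe.2 hH) with h | h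
  · exact (Finset.eq_of_subset_of_card_le h (hmax H hH)).symm.subset
  · exact h

/-- telescoping along a chain -/
theorem tele {n : ℕ} : ∀ (k : ℕ) (A : Finset (Finset (Fin n))), A.card = k →
    IsChain (· ⊆ ·) (A : Set (Finset (Fin n))) →
    ∑ H ∈ A, (H.card - (A.filter fun G => G ⊂ H).sup Finset.card) = A.sup Finset.card := by
  intro k
  induction k with
  | zero =>
    intro A hA _
    rw [Finset.card_eq_zero] at hA
    subst hA
    simp
  | succ k ih =>
    intro A hA hc
    obtain ⟨T, hT, hmax⟩ := exists_greatest (Finset.card_pos.1 (by omega)) hc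
    have h1 := ih (A.erase T) (by rw [Finset.card_erase_of_mem hT, hA]; rfl)
      (hc.mono (by exact_mod_cast Finset.erase_subset T A))
    have e1 : A.filter (fun G => G ⊂ T) = A.erase T := by
      ext G
      rw [Finset.mem_filter, Finset.mem_erase]
      constructor
      · rintro ⟨h, h2⟩
        exact ⟨h2.ne, h⟩
      · rintro ⟨h, h2⟩
        exact ⟨h2, lt_of_le_of_ne (hmax G h2) h⟩
    have e2 : ∀ H ∈ A.erase T, A.filter (fun G => G ⊂ H) = (A.erase T).filter (fun G => G ⊂ H) := by
      intro H hH
      ext G
      rw [Finset.mem_filter, Finset.mem_filter, Finset.mem_erase]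
      constructor
      · rintro ⟨h, h2⟩
        refine ⟨⟨?_, h⟩, h2⟩
        rintro rfl
        exact h2.2 (hmax H (Finset.mem_of_mem_erase hH))
      · rintro ⟨⟨_, h⟩, h2⟩
        exact ⟨h, h2⟩
    have e3 : A.sup Finset.card = T.card :=
      le_antisymm (Finset.sup_le fun H hH => Finset.card_le_card (hmax H hH))
        (Finset.le_sup (f := Finset.card) hT)
    have e4 : (A.erase T).sup Finset.card ≤ T.card :=
      Finset.sup_le fun H hH => Finset.card_le_card (hmax H (Finset.mem_of_mem_erase hH))
    rw [← Finset.add_sum_erase _ _ hT, e1, e3]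
    rw [Finset.sum_congr rfl (fun H hH => by rw [e2 H hH]), h1]
    omega

theorem p_deg : P_DEG := by
  intro n r m hr hrn ⟨⟨hfl, hch⟩, hFY⟩
  classical
  set A : Finset (Finset (Fin n)) := m.support.erase Finset.univ with hAdef
  have hAc : IsChain (· ⊆ ·) (A : Set (Finset (Fin n))) :=
    hch.mono (by exact_mod_cast Finset.erase_subset _ _)
  have hAr : ∀ G ∈ A, G.card < r := by
    intro G hG
    rw [hAdef, Finset.mem_erase] at hG
    exact (hfl G hG.2).2.resolve_right hG.1
  have huniv : (Finset.univ : Finset (Fin n)).card = n := by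
    rw [Finset.card_univ, Fintype.card_fin]
  have hfil : ∀ H ∈ A, m.support.filter (fun G => G ⊂ H) = A.filter (fun G => G ⊂ H) := by
    intro H hH
    ext G
    rw [Finset.mem_filter, Finset.mem_filter, hAdef, Finset.mem_erase]
    constructor
    · rintro ⟨h, h2⟩
      refine ⟨⟨?_, h⟩, h2⟩
      rintro rfl
      exact h2.2 (Finset.subset_univ _)
    · rintro ⟨⟨_, h⟩, h2⟩
      exact ⟨h, h2⟩
  have hfilu : m.support.filter (fun G => G ⊂ Finset.univ) = A := by
    ext G
    rw [Finset.mem_filter, hAdef, Finset.mem_erase]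
    constructor
    · rintro ⟨h, h2⟩
      exact ⟨h2.ne, h⟩
    · rintro ⟨h, h2⟩
      exact ⟨h2, lt_of_le_of_ne (Finset.subset_univ _) h⟩
  -- on proper flats the rank is the cardinality
  have hpr : ∀ F, F ∈ A ∨ F = Finset.univ → pr (rk r) m F = pr Finset.card m F := by
    intro F hF
    unfold pr
    refine Finset.sup_congr rfl fun G hG => ?_
    have hG' := Finset.mem_filter.1 hG
    have : G ∈ A := by
      rw [hAdef, Finset.mem_erase]
      refine ⟨?_, hG'.1⟩
      rintro rfl
      exact hG'.2.2 (Finset.subset_univ _)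
    have := hAr G this
    unfold rk
    omega
  have hA : ∀ F ∈ A, m F + pr Finset.card m F < F.card := by
    intro F hF
    have h1 := hFY F (Finset.mem_of_mem_erase hF)
    rw [hpr F (Or.inl hF)] at h1
    have := hAr F hF
    unfold rk at h1
    omega
  have hU : pr Finset.card m Finset.univ + m Finset.univ ≤ r - 1 := by
    by_cases hu : Finset.univ ∈ m.support
    · have h1 := hFY _ hu
      rw [hpr _ (Or.inr rfl)] at h1
      unfold rk at h1
      omega
    · rw [Finsupp.notMem_support_iff.1 hu, add_zero]
      unfold pr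
      refine Finset.sup_le fun G hG => ?_
      rw [hfilu] at hG
      have := hAr G hG
      omega
  have hduU : du m Finset.univ = n - 1 - pr Finset.card m Finset.univ - m Finset.univ := by
    rw [du, Finsupp.onFinset_apply, if_pos rfl]
  have hduA : ∀ H ∈ A, du m H = H.card - pr Finset.card m H - m H := by
    intro H hH
    rw [hAdef, Finset.mem_erase] at hH
    rw [du, Finsupp.onFinset_apply, if_neg hH.1, if_pos hH.2]
  have hIA : insert Finset.univ m.support = insert Finset.univ A := by
    rw [hAdef]
    ext G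
    simp only [Finset.mem_insert, Finset.mem_erase]
    tauto
  have hnA : Finset.univ ∉ A := Finset.notMem_erase _ _
  have d1 : m.degree = m Finset.univ + ∑ H ∈ A, m H := by
    rw [← Finset.sum_insert hnA, ← hIA, Finsupp.degree_apply]
    refine Finset.sum_subset (Finset.subset_insert _ _) fun H _ hH => Finsupp.notMem_support_iff.1 hH
  have d2 : (du m).degree = du m Finset.univ + ∑ H ∈ A, du m H := by
    rw [← Finset.sum_insert hnA, ← hIA, Finsupp.degree_apply]
    refine Finset.sum_subset Finsupp.support_onFinset_subset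
      fun H _ hH => Finsupp.notMem_support_iff.1 hH
  have t1 := tele A.card A rfl hAc
  have t2 : ∑ H ∈ A, m H + ∑ H ∈ A, du m H = A.sup Finset.card := by
    rw [← t1, ← Finset.sum_add_distrib]
    refine Finset.sum_congr rfl fun H hH => ?_
    rw [hduA H hH, ← hfil H hH]
    have := hA H hH
    unfold pr at this ⊢
    omega
  have t3 : pr Finset.card m Finset.univ = A.sup Finset.card := by
    unfold pr
    rw [hfilu]
  refine ⟨?_, ?_⟩
  · rw [d1, d2, hduU]
    rw [t3] at hU ⊢
    omega
  · rw [hduU]
    omega

end Pool.Agent.W2helper53.UC
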